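import Pool.Agent.Y642.ND.Stm2

/-!
# A linear version of a theorem of Olson
-/

set_option autoImplicit false

open Module

namespace Pool.Agent.Y220.ND

section

variable {k F : Type} [Field k] [Field F] [Algebra k F]

/-- a nondegenerate form for which multiplications are symmetric -/
theorem exists_form (k F : Type) [Field k] [Field F] [Algebra k F] :
    ∃ b : LinearMap.BilinForm k F, b.Nondegenerate ∧
      ∃ φ : F →ₗ[k] k, ∀ x y, b x y = φ (x * y) := by
  obtain ⟨φ, hφ⟩ : ∃ φ : Module.Dual k F, φ 1 ≠ 0 := by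
    by_contra h
    push Not at h
    exact one_ne_zero ((Module.forall_dual_apply_eq_zero_iff k (1 : F)).1 h)
  refine ⟨(LinearMap.mul k F).compr₂ φ, ⟨fun x hx => ?_, fun x hx => ?_⟩, φ, fun x y => rfl⟩
  · by_contra hx0
    have := hx x⁻¹
    rw [LinearMap.compr₂_apply, LinearMap.mul_apply', mul_inv_cancel₀ hx0] at this
    exact hφ this
  · by_contra hx0
    have := hx x⁻¹
    rw [LinearMap.compr₂_apply, LinearMap.mul_apply', inv_mul_cancel₀ hx0] at this
    exact hφ this

theorem le_mul {X B : Submodule k F} (h1 : 1 ∈ B) : X ≤ X * B := fun x hx => by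
  have := Submodule.mul_mem_mul hx h1
  rwa [mul_one] at this

/-- multiplication of a subspace by an element -/
noncomputable def sc (c : F) (X : Submodule k F) : Submodule k F := Submodule.span k {c} * X

theorem mem_sc {c z : F} {X : Submodule k F} : z ∈ sc c X ↔ ∃ x ∈ X, c * x = z :=
  Submodule.mem_span_singleton_mul

theorem sc_mul (c : F) (X B : Submodule k F) : sc c X * B = sc c (X * B) := mul_assoc _ _ _

theorem sc_bot {c : F} (hc : c ≠ 0) {X : Submodule k F} (h : sc c X = ⊥) : X = ⊥ := by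
  rw [Submodule.eq_bot_iff]
  intro x hx
  have h1 : c * x ∈ sc c X := mem_sc.2 ⟨x, hx, rfl⟩
  rw [h, Submodule.mem_bot] at h1
  exact (mul_eq_zero.1 h1).resolve_left hc

theorem sc_top {c : F} (hc : c ≠ 0) {X : Submodule k F} (h : sc c X = ⊤) : X = ⊤ := by
  rw [Submodule.eq_top_iff']
  intro z
  have h1 : c * z ∈ sc c X := by rw [h]; trivial
  obtain ⟨x, hx, h2⟩ := mem_sc.1 h1
  rwa [← mul_left_cancel₀ hc h2]

theorem sc_finrank {c : F} (hc : c ≠ 0) (X : Submodule k F) :
    finrank k (sc c X) = finrank k X := by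
  have h1 : sc c X = X.map (LinearMap.mulLeft k c) := by
    ext z
    rw [mem_sc, Submodule.mem_map]
    rfl
  rw [h1]
  exact (LinearEquiv.finrank_eq (Submodule.equivMapOfInjective (LinearMap.mulLeft k c)
    (fun a b h => mul_left_cancel₀ hc h) X)).symm

variable [FiniteDimensional k F]

theorem submod (X Y B : Submodule k F) :
    finrank k ((X ⊔ Y) * B : Submodule k F) + finrank k ((X ⊓ Y) * B : Submodule k F) ≤
      finrank k (X * B : Submodule k F) + finrank k (Y * B : Submodule k F) := by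
  rw [Submodule.sup_mul, ← Submodule.finrank_sup_add_finrank_inf_eq (X * B) (Y * B)]
  apply Nat.add_le_add_left
  apply Submodule.finrank_mono
  exact le_inf (mul_le_mul' inf_le_left le_rfl) (mul_le_mul' inf_le_right le_rfl)

theorem pos_of_ne {X : Submodule k F} (h : X ≠ ⊥) : 0 < finrank k X := by
  rw [Nat.pos_iff_ne_zero]
  intro h0
  exact h (Submodule.finrank_eq_zero.1 h0)

end

theorem t : Pool.Agent.Y642.ND.S_OLS := by
  intro k F _ _ _ _ A B h1 hgen hA hAB
  classical
  let adm : Submodule k F → Prop := fun X => X ≠ ⊥ ∧ X * B ≠ ⊤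
  let d : Submodule k F → ℕ := fun X => finrank k X
  have hdle : ∀ X, d X ≤ d (X * B) := fun X => Submodule.finrank_mono (le_mul h1)
  have htop : ∀ X : Submodule k F, X = ⊤ → d X = finrank k F := by
    rintro X rfl
    exact finrank_top k F
  -- the minimal value
  have hex : ∃ n, ∃ X, adm X ∧ d (X * B) = d X + n := by
    refine ⟨d (A * B) - d A, A, ⟨hA, hAB⟩, ?_⟩
    have := hdle A
    omega
  obtain ⟨κ, ⟨X1, hX1, hX1e⟩, hκ⟩ : ∃ κ, (∃ X, adm X ∧ d (X * B) = d X + κ) ∧
      ∀ X, adm X → d X + κ ≤ d (X * B) := by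
    refine ⟨Nat.find hex, Nat.find_spec hex, fun X hX => ?_⟩
    have h2 := hdle X
    have h3 := Nat.find_min' hex ⟨X, hX, show d (X * B) = d X + (d (X * B) - d X) by omega⟩
    omega
  have hex2 : ∃ n, ∃ X, (adm X ∧ d (X * B) = d X + κ) ∧ d X = n :=
    ⟨d X1, X1, ⟨hX1, hX1e⟩, rfl⟩
  obtain ⟨m0, ⟨X0, hX0, hX0d⟩, hm0⟩ : ∃ m, (∃ X, (adm X ∧ d (X * B) = d X + κ) ∧ d X = m) ∧
      ∀ X, (adm X ∧ d (X * B) = d X + κ) → m ≤ d X :=
    ⟨Nat.find hex2, Nat.find_spec hex2, fun X hX => Nat.find_min' hex2 ⟨X, hX, rfl⟩⟩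
  -- duality
  have hdual : ∀ X, (adm X ∧ d (X * B) = d X + κ) → m0 + d (X * B) ≤ finrank k F := by
    intro X hX
    obtain ⟨b, hb, φ, hφ⟩ := exists_form k F
    obtain ⟨Y, hY⟩ : ∃ Y, Y = b.orthogonal (X * B) := ⟨_, rfl⟩
    have hdY : d Y = finrank k F - d (X * B) := by
      rw [hY]
      exact LinearMap.BilinForm.finrank_orthogonal hb _
    have hlt : d (X * B) < finrank k F := Submodule.finrank_lt hX.1.2
    have hXpos : 0 < d X := pos_of_ne hX.1.1
    have hYB : Y * B ≤ b.orthogonal X := by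
      rw [Submodule.mul_le]
      intro y hy c hc
      rw [LinearMap.BilinForm.mem_orthogonal_iff]
      intro x hx
      rw [hY, LinearMap.BilinForm.mem_orthogonal_iff] at hy
      have := hy (x * c) (Submodule.mul_mem_mul hx hc)
      rw [hφ] at this ⊢
      rw [← this]
      congr 1
      ring
    have hdYB : d (Y * B) ≤ finrank k F - d X :=
      (Submodule.finrank_mono hYB).trans (LinearMap.BilinForm.finrank_orthogonal hb _).le
    have hYadm : adm Y := by
      refine ⟨fun h => ?_, fun h => ?_⟩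
      · have : d Y = 0 := by
          rw [h]
          exact finrank_bot k F
        omega
      · have := htop _ h
        omega
    have h4 := hκ Y hYadm
    have h6 := hX.2
    have h5 := hm0 Y ⟨hYadm, by omega⟩
    omega
  -- atoms
  have hatom : ∀ X Y, (adm X ∧ d (X * B) = d X + κ) → d X = m0 →
      (adm Y ∧ d (Y * B) = d Y + κ) → X ⊓ Y ≠ ⊥ → X ≤ Y := by
    intro X Y hX hXm hY hne
    have hinf : adm (X ⊓ Y) := by
      refine ⟨hne, fun h => hX.1.2 (top_le_iff.1 ?_)⟩
      rw [← h]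
      exact mul_le_mul' inf_le_left le_rfl
    have e1 := hκ _ hinf
    have e2 : d ((X ⊔ Y) * B) + d ((X ⊓ Y) * B) ≤ d (X * B) + d (Y * B) := submod X Y B
    have e3 : d (X ⊔ Y) + d (X ⊓ Y) = d X + d Y := Submodule.finrank_sup_add_finrank_inf_eq X Y
    have e4 := hdual Y hY
    have e5 : 0 < d (X ⊓ Y) := pos_of_ne hne
    have e9 := hX.2
    have e10 := hY.2
    have hsup : adm (X ⊔ Y) := by
      refine ⟨fun h => hX.1.1 (le_bot_iff.1 ?_), fun h => ?_⟩
      · rw [← h]
        exact le_sup_left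
      · have := htop _ h
        omega
    have e6 := hκ _ hsup
    have e7 := hm0 (X ⊓ Y) ⟨hinf, by omega⟩
    have e8 : X ⊓ Y = X := Submodule.eq_of_le_of_finrank_le inf_le_left (by
      show d X ≤ d (X ⊓ Y)
      omega)
    rw [← e8]
    exact inf_le_right
  -- multiplication
  have hsc : ∀ (c : F) (X : Submodule k F), c ≠ 0 → (adm X ∧ d (X * B) = d X + κ) →
      (adm (sc c X) ∧ d (sc c X * B) = d (sc c X) + κ) ∧ d (sc c X) = d X := by
    intro c X hc hX
    have e1 : d (sc c X) = d X := sc_finrank hc X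
    have e2 : d (sc c X * B) = d (X * B) := by
      rw [sc_mul]
      exact sc_finrank hc _
    refine ⟨⟨⟨fun h => hX.1.1 (sc_bot hc h), fun h => ?_⟩, ?_⟩, e1⟩
    · rw [sc_mul] at h
      exact hX.1.2 (sc_top hc h)
    · rw [e1, e2]
      exact hX.2
  obtain ⟨x, hx, hx0⟩ := Submodule.exists_mem_ne_zero_of_ne_bot hX0.1.1
  obtain ⟨H, hH⟩ : ∃ H, H = sc x⁻¹ X0 := ⟨_, rfl⟩
  have hHf : (adm H ∧ d (H * B) = d H + κ) ∧ d H = d X0 := by
    rw [hH]
    exact hsc _ _ (inv_ne_zero hx0) hX0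
  have hH1 : (1 : F) ∈ H := by
    rw [hH]
    exact mem_sc.2 ⟨x, hx, inv_mul_cancel₀ hx0⟩
  have hmul : ∀ y ∈ H, ∀ z ∈ H, y * z ∈ H := by
    intro y hy z hz
    by_cases hy0 : y = 0
    · rw [hy0, zero_mul]
      exact H.zero_mem
    · have h3 := hsc y⁻¹ H (inv_ne_zero hy0) hHf.1
      have h4 : (1 : F) ∈ sc y⁻¹ H := mem_sc.2 ⟨y, hy, inv_mul_cancel₀ hy0⟩
      have h5 := hatom H (sc y⁻¹ H) hHf.1 (hHf.2.trans hX0d) h3.1 (by
        intro h
        have h6 : (1 : F) ∈ H ⊓ sc y⁻¹ H := ⟨hH1, h4⟩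
        rw [h, Submodule.mem_bot] at h6
        exact one_ne_zero h6)
      obtain ⟨w, hw, h6⟩ := mem_sc.1 (h5 hz)
      rw [← h6, mul_inv_cancel_left₀ hy0]
      exact hw
  have hHH : H * H ≤ H := Submodule.mul_le.2 hmul
  have hHB : H ≤ H * B := le_mul h1
  have hHBn : H * B ≠ H := by
    intro h
    have hBH : B ≤ H := by
      intro c hc
      have := Submodule.mul_mem_mul hH1 hc
      rwa [one_mul, h] at this
    have h3 : Algebra.adjoin k (B : Set F) ≤ H.toSubalgebra hH1 (fun a b ha hb => hmul a ha b hb) :=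
      Algebra.adjoin_le (fun c hc => hBH hc)
    rw [hgen, top_le_iff] at h3
    apply hHf.1.1.2
    rw [h, Submodule.eq_top_iff']
    intro z
    have h4 : z ∈ H.toSubalgebra hH1 (fun a b ha hb => hmul a ha b hb) := by
      rw [h3]
      trivial
    exact h4
  obtain ⟨y, hy, hyH⟩ := SetLike.exists_of_lt (lt_of_le_of_ne hHB (Ne.symm hHBn))
  have hy0 : y ≠ 0 := by
    rintro rfl
    exact hyH H.zero_mem
  have hyHB : sc y H ≤ H * B := by
    intro z hz
    obtain ⟨w, hw, rfl⟩ := mem_sc.1 hz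
    rw [mul_comm y w]
    have h3 : w * y ∈ H * (H * B) := Submodule.mul_mem_mul hw hy
    rw [← mul_assoc] at h3
    exact mul_le_mul' hHH le_rfl h3
  have hdis : H ⊓ sc y H = ⊥ := by
    rw [Submodule.eq_bot_iff]
    rintro z ⟨hz, hz'⟩
    obtain ⟨w, hw, rfl⟩ := mem_sc.1 hz'
    by_contra hne
    have hw0 : w ≠ 0 := by
      rintro rfl
      exact hne (mul_zero y)
    have h3 : sc w H = H := by
      apply Submodule.eq_of_le_of_finrank_le
      · intro u hu
        obtain ⟨v, hv, rfl⟩ := mem_sc.1 hu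
        exact hmul w hw v hv
      · exact (sc_finrank hw0 H).ge
    have h4 : (1 : F) ∈ sc w H := by
      rw [h3]
      exact hH1
    obtain ⟨v, hv, h5⟩ := mem_sc.1 h4
    apply hyH
    have h6 : y * w * v ∈ H := hmul _ hz v hv
    rwa [mul_assoc, h5, mul_one] at h6
  have f1 : d (H ⊔ sc y H) + d (H ⊓ sc y H) = d H + d (sc y H) :=
    Submodule.finrank_sup_add_finrank_inf_eq _ _
  have f2 : d (H ⊓ sc y H) = 0 := by
    rw [hdis]
    exact finrank_bot k F
  have f3 : d (sc y H) = d H := sc_finrank hy0 H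
  have f4 : d (H ⊔ sc y H) ≤ d (H * B) := Submodule.finrank_mono (sup_le hHB hyHB)
  have f5 : d B ≤ d (H * B) := by
    apply Submodule.finrank_mono
    intro c hc
    have := Submodule.mul_mem_mul hH1 hc
    rwa [one_mul] at this
  have f6 := hHf.1.2
  have f7 := hκ A ⟨hA, hAB⟩
  show 2 * d A + d B ≤ 2 * d (A * B)
  omega

end Pool.Agent.Y220.ND
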